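import Pool.Agent.Helper40.Ct.Final
import Pool.Agent.Helper31.Ct.Paths
import Pool.Agent.Helper77.Ct.CYC
import Pool.Agent.Helper90.Ct.Sym
import Pool.Agent.Helper62.Ct.GENL
import Pool.Agent.Helper65.Ct.Bdry
import Pool.Agent.Helper3.Ct.GRB
import Pool.Agent.Helper86.Ct.Eval0
import Pool.Agent.Helper85.Ct.EV1a
import Pool.Agent.Helper26.Ct.EV2
import Pool.Agent.Helper69.Ct.EV3
import Pool.Agent.Helper83.Ct.Eval1
import Pool.Agent.Helper54.Ct.GRX
import Pool.Agent.Helper6.Ct.GRE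
import Pool.Agent.Helper15.Ct.Find
import Pool.Agent.Helper57.Ct.Cube
import Pool.Agent.Helper61.Ct.BALL
import Pool.Agent.Helper70.Ct.Hype
import Pool.Agent.Helper11.Ct.HYP0
import Pool.Agent.Helper17.Ct.Perm
import Pool.Agent.Helper96.Ct.EZ
import Pool.Agent.Helper67.Ct.APPR
import Pool.Agent.Helper27.Ct.COC
import Pool.Agent.Helper49.Ct.Canc
import Pool.Agent.Helper8.Ct.HOM
import Pool.Agent.Helper89.Ct.Side
import Pool.Agent.Helper32.Ct.EV1
import Pool.Agent.Helper5.Ct.GP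

/-!
Assembly of the packets.
-/

namespace Pool.Agent.Helper40.Ct

theorem hyp0_all : HYP0 :=
  Helper11.Ct.hyp0 (Helper70.Ct.hype (Helper61.Ct.ball (Helper57.Ct.cube
    (Helper67.Ct.appr
      (Helper65.Ct.bdry Helper27.Ct.coc Helper96.Ct.ez Helper31.Ct.paths Helper77.Ct.cyc
        Helper49.Ct.canc0 Helper62.Ct.genl)
      (Helper8.Ct.hom Helper96.Ct.ez Helper3.Ct.grb) (Helper89.Ct.side Helper31.Ct.paths)
      (Helper86.Ct.eval0 Helper31.Ct.paths)
      (Helper83.Ct.eval1 (Helper32.Ct.ev1 Helper90.Ct.sym Helper31.Ct.paths) Helper85.Ct.ev1a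
        Helper26.Ct.ev2 Helper69.Ct.ev3)
      Helper54.Ct.grx Helper6.Ct.gre Helper5.Ct.gp (Helper15.Ct.find Helper31.Ct.paths)
      Helper31.Ct.paths)
    Helper6.Ct.gre)))

/-- Q1 for all dimensions if `r + 1` is prime. -/
theorem all_dims (d r : ℕ) (hd : 1 ≤ d) (hr : (r + 1).Prime) : QOne d r :=
  final hyp0_all Helper17.Ct.perm d r hd hr

end Pool.Agent.Helper40.Ct
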