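import Mathlib

/-!
Definitions for the colourful Tverberg theorem for vector fields (MP_034a88_co).
-/

set_option autoImplicit false

open Finset

namespace Pool.Agent.Helper40.Ct

/-! ### Lists -/

/-- alternating sum over the faces of a list -/
def bdf {V : Type} (f : List V → ℤ) (l : List V) : ℤ :=
  ∑ i ∈ range l.length, (-1) ^ i * f (l.eraseIdx i)

/-- signed sum of `f` over the staircase paths in `X × E` (the product of two simplices) -/
def Pf {α β : Type} : List β → (List (α × β) → ℤ) → List α → ℤ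
  | [], _, _ => 0
  | [_], _, [] => 0
  | [e], f, x :: xs => f ((x :: xs).map fun y => (y, e))
  | e :: e' :: es, f, X => ∑ i ∈ range X.length, (-1) ^ (X.length - 1 - i) *
      Pf (e' :: es) (fun l => f ((X.take (i + 1)).map (fun y => (y, e)) ++ l)) (X.drop i)

/-! ### Linear algebra -/

open Classical in
/-- the sign of the determinant if `b` is in the cone spanned by the vectors, else `0` -/
noncomputable def dg {N : ℕ} (b : Fin N → ℝ) (w : Fin N → (Fin N → ℝ)) : ℤ :=
  if ∃ c : Fin N → ℝ, (∀ s, 0 ≤ c s) ∧ ∑ s, c s • w s = b then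
    ((SignType.sign (Matrix.of w).det : SignType) : ℤ) else 0

/-- the same for a list of vectors -/
noncomputable def dgL {N : ℕ} (b : Fin N → ℝ) (l : List (Fin N → ℝ)) : ℤ :=
  if h : l.length = N then dg b (fun s => l.get (Fin.cast h.symm s)) else 0

/-! ### Elements, facets, parts -/

/-- elements: `none` is an extra element, `some (i, a)` is the `a`-th element of colour `i` -/
abbrev El (d r : ℕ) : Type := Option (Fin (d + 1) × Fin r)

/-- facets: `π i a.succ` is the part of the element `(i, a)`, and `π i 0` is the part without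
element of colour `i` -/
abbrev Fac (d r : ℕ) : Type := Fin (d + 1) → Equiv.Perm (Fin (r + 1))

variable {d r : ℕ}

/-- the part of an element -/
def part (π : Fac d r) : El d r → Fin (r + 1)
  | none => 0
  | some (i, a) => π i a.succ

/-- the sign of a facet -/
def sg (π : Fac d r) : ℤ := ∏ i, ((Equiv.Perm.sign (π i) : ℤˣ) : ℤ)

/-- the coloured elements -/
def colList (d r : ℕ) : List (El d r) :=
  (List.finRange (d + 1)).flatMap fun i => (List.finRange r).map fun a => some (i, a)

/-- all elements -/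
def elList (d r : ℕ) : List (El d r) := none :: colList d r

/-- the vector `(1, w) ⊗ e_j`, `j` the part of `e` -/
noncomputable def enc (π : Fac d r) (w : Fin d → ℝ) (e : El d r) : Fin ((d + 1) * (r + 1)) → ℝ :=
  fun s => if (finProdFinEquiv.symm s).2 = part π e then
    (Fin.cons 1 w : Fin (d + 1) → ℝ) (finProdFinEquiv.symm s).1 else 0

/-- the target vector -/
noncomputable def bvec (d r : ℕ) : Fin ((d + 1) * (r + 1)) → ℝ :=
  fun s => if (finProdFinEquiv.symm s).1 = 0 then 1 else 0

/-- the contribution of a list of pairs (point, element) -/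
noncomputable def fpi {α : Type} (u : α → El d r → (Fin d → ℝ)) (π : Fac d r)
    (l : List (α × El d r)) : ℤ :=
  dgL (bvec d r) (l.map fun q => enc π (u q.1 q.2) q.2)

/-- the cochain -/
noncomputable def cc {α : Type} (u : α → El d r → (Fin d → ℝ)) (X : List α) : ℤ :=
  ∑ π : Fac d r, sg π * Pf (elList d r) (fpi u π) X

/-- general position of the vectors at the vertices of `X` -/
def Gen {α : Type} (u : α → El d r → (Fin d → ℝ)) (X : List α) : Prop :=
  ∀ (A : Finset (α × El d r)) (c : α × El d r → ℝ), (∀ q ∈ A, q.1 ∈ X) → A.card ≤ d →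
    (∀ q ∈ A, 0 ≤ c q) → ∑ q ∈ A, c q = 1 → ∑ q ∈ A, c q • u q.1 q.2 ≠ 0

/-! ### The grid -/

/-- the simplex `x, x + e_(σ 0), x + e_(σ 0) + e_(σ 1), …` of the grid -/
def frd {d : ℕ} (x : Fin d → ℤ) (σ : Equiv.Perm (Fin d)) : List (Fin d → ℤ) :=
  List.ofFn fun s : Fin (d + 1) =>
    x + ∑ t ∈ univ.filter (fun t : Fin d => (t : ℕ) < s), Pi.single (σ t) (1 : ℤ)

/-- the lower corner of a cube of the grid -/
def corner {d M : ℕ} (x : Fin d → Fin M) : Fin d → ℤ := fun k => ((x k : ℕ) : ℤ)

/-- the fundamental chain of the grid `{0, …, M}^d` -/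
def Gr (d M : ℕ) (f : List (Fin d → ℤ) → ℤ) : ℤ :=
  ∑ x : Fin d → Fin M, ∑ σ : Equiv.Perm (Fin d),
    ((Equiv.Perm.sign σ : ℤˣ) : ℤ) * f (frd (corner x) σ)

/-- the list lies in the grid -/
def InGrid {d : ℕ} (M : ℕ) (Y : List (Fin d → ℤ)) : Prop :=
  ∀ y ∈ Y, ∀ k, 0 ≤ y k ∧ y k ≤ M

/-- the list lies in a facet of the grid -/
def InFacet {d : ℕ} (M : ℕ) (Y : List (Fin d → ℤ)) : Prop :=
  ∃ k, (∀ y ∈ Y, y k = 0) ∨ (∀ y ∈ Y, y k = M)

/-- the centre: a point inside the first simplex of the grid -/
noncomputable def ctr (d : ℕ) : Fin d → ℝ := fun k => ((d : ℝ) - (k : ℕ)) / ((d : ℝ) + 1)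

/-- the field `x ↦ ctr - x` -/
noncomputable def gf {d : ℕ} (x : Fin d → ℤ) : Fin d → ℝ := fun k => ctr d k - (x k : ℝ)

/-- the convex combination of vectors of a part: `0` is in the convex hull of the vectors of the
elements of part `j` -/
def Hits (π : Fac d r) (w : El d r → (Fin d → ℝ)) (j : Fin (r + 1)) : Prop :=
  ∃ c : El d r → ℝ, (∀ e, 0 ≤ c e) ∧ ∑ e ∈ univ.filter (fun e => part π e = j), c e = 1 ∧
    ∑ e ∈ univ.filter (fun e => part π e = j), c e • w e = 0

/-- the blocks of the only path that counts at the end -/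
def blk {α β : Type} (r : ℕ) : List β → List α → List (α × β)
  | _, [] => []
  | E, x :: xs => (E.take (r + 1)).map (fun e => (x, e)) ++ blk r (E.drop r) xs

/-- the facets that count at the end -/
def Valid (π : Fac d r) : Prop :=
  π 0 0 = 0 ∧ ∀ s : Fin d, π s.succ 0 = π s.castSucc (Fin.last r)

end Pool.Agent.Helper40.Ct
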