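import Pool.Agent.Helper40.Ct.Goals

/-!
From unit normals to regression depth.
-/

set_option autoImplicit false

open Finset

namespace Pool.Agent.Helper40.Ct

/-- Euclidean space `ℝ^d`. -/
abbrev V (d : ℕ) := EuclideanSpace ℝ (Fin d)

/-- `H` is an affine hyperplane of `ℝ^d`. -/
def IsHyperplane {d : ℕ} (H : Set (V d)) : Prop :=
  ∃ n : V d, n ≠ 0 ∧ ∃ c : ℝ, H = {x | inner ℝ n x = c}

/-- The ray emanating from `q` in direction `v`. -/
def ray {d : ℕ} (q v : V d) : Set (V d) := {x | ∃ t : ℝ, 0 ≤ t ∧ x = q + t • v}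

/-- The direction `v` is parallel to `H`: translation by `v` maps `H` into itself. -/
def ParallelTo {d : ℕ} (v : V d) (H : Set (V d)) : Prop := ∀ x ∈ H, x + v ∈ H

/-- The regression depth of `q` with respect to the family `B`: the minimum, over all rays
emanating from `q`, of the number of members that the ray intersects or is parallel to. -/
noncomputable def RD {d : ℕ} {ι : Type} (B : ι → Set (V d)) (q : V d) : ℕ :=
  ⨅ v : {v : V d // v ≠ 0},
    Nat.card {i : ι // (ray q v.1 ∩ B i).Nonempty ∨ ParallelTo v.1 (B i)}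

/-- The statement of Q1 for given `d` and `r`.  The `j`-th part of the colourful partition
consists of the hyperplanes `A i (σ i j)`, one for each colour `i`. -/
def QOne (d r : ℕ) : Prop :=
  ∀ A : Fin (d + 1) → Fin r → Set (V d), (∀ i j, IsHyperplane (A i j)) →
    ∃ (σ : Fin (d + 1) → Equiv.Perm (Fin r)) (q : V d),
      ∀ j : Fin r, 1 ≤ RD (fun i => A i (σ i j)) q

/-- unit normal form -/
theorem unit_normal {d : ℕ} {H : Set (V d)} (hH : IsHyperplane H) :
    ∃ (n : Fin d → ℝ) (c : ℝ), ∑ k, n k ^ 2 = 1 ∧ H = {x : V d | ∑ k, n k * x k = c} := by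
  obtain ⟨n, hn, c, rfl⟩ := hH
  have hn0 : ‖n‖ ≠ 0 := norm_ne_zero_iff.mpr hn
  refine ⟨fun k => n k / ‖n‖, c / ‖n‖, ?_, ?_⟩
  · have h1 : ‖n‖ ^ 2 = ∑ k, n k ^ 2 := by
      rw [EuclideanSpace.norm_eq, Real.sq_sqrt (by positivity)]
      simp
    simp only [div_pow]
    rw [← Finset.sum_div, ← h1]
    field_simp
  · ext x
    simp only [Set.mem_setOf_eq, PiLp.inner_apply]
    have h2 : ∑ k, n k / ‖n‖ * x k = (∑ k, n k * x k) / ‖n‖ := by
      rw [Finset.sum_div]
      refine Finset.sum_congr rfl fun k _ => by ring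
    rw [h2, div_left_inj' hn0]
    simp [mul_comm]

theorem final (hH : HYP0) (hP : PERM) (d r : ℕ) (hd : 1 ≤ d) (hr : (r + 1).Prime) : QOne d r := by
  intro A hA
  have hr1 : 1 ≤ r := by
    have := hr.two_le
    omega
  choose n c hn hAc using fun i j => unit_normal (hA i j)
  obtain ⟨q, π, hq⟩ := hH d r hd hr1 hr n c hn
  obtain ⟨σ, hσ⟩ := hP d r π
  refine ⟨σ, WithLp.toLp 2 q, fun j => ?_⟩
  obtain ⟨w, hw0, hwz, hw1, hwv⟩ := hq j
  have hne : Nonempty {v : V d // v ≠ 0} := by
    refine ⟨⟨EuclideanSpace.single ⟨0, hd⟩ 1, ?_⟩⟩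
    intro h
    have := congrArg (fun v : V d => v ⟨0, hd⟩) h
    simp at this
  unfold RD
  refine le_ciInf ?_
  rintro ⟨v, hv⟩
  rw [Nat.one_le_iff_ne_zero, ← Nat.pos_iff_ne_zero, Nat.card_pos_iff]
  refine ⟨?_, inferInstance⟩
  by_contra hcon
  rw [not_nonempty_iff, isEmpty_subtype] at hcon
  have key : ∀ i, (c i (σ i j) - ∑ k, n i (σ i j) k * q k) * (∑ k, n i (σ i j) k * v k) < 0 := by
    intro i
    have h := hcon i
    push Not at h
    obtain ⟨h1, h2⟩ := h
    rw [hAc] at h1 h2
    set a := σ i j with ha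
    have hm : ∑ k, n i a k * v k ≠ 0 := by
      intro hm
      apply h2
      intro x hx
      simp only [Set.mem_setOf_eq, PiLp.add_apply, mul_add, Finset.sum_add_distrib] at hx ⊢
      rw [hx, hm, add_zero]
    by_contra hneg
    push Not at hneg
    refine Set.Nonempty.ne_empty ?_ h1
    refine ⟨WithLp.toLp 2 q + ((c i a - ∑ k, n i a k * q k) / (∑ k, n i a k * v k)) • v,
      ⟨_, ?_, rfl⟩, ?_⟩
    · rcases lt_or_gt_of_ne hm with h | h
      · apply div_nonneg_of_nonpos _ h.le
        by_contra hcon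
        push Not at hcon
        have := mul_neg_of_pos_of_neg hcon h
        linarith
      · apply div_nonneg _ h.le
        by_contra hcon
        push Not at hcon
        have := mul_neg_of_neg_of_pos hcon h
        linarith
    · simp only [Set.mem_setOf_eq, PiLp.add_apply, PiLp.smul_apply, smul_eq_mul, mul_add,
        Finset.sum_add_distrib]
      have h3 : ∀ t : ℝ, ∑ k, n i a k * (t * v k) = t * ∑ k, n i a k * v k := by
        intro t
        rw [Finset.mul_sum]
        refine Finset.sum_congr rfl fun k _ => by ring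
      rw [h3]
      field_simp
      ring
  -- take the inner product of the relation with `v`
  have h1 : ∑ i, ∑ a, w i a * ((c i a - ∑ k, n i a k * q k) * (∑ k, n i a k * v k)) = 0 := by
    have h3 : ∀ i a, w i a * ((c i a - ∑ k, n i a k * q k) * (∑ k, n i a k * v k)) =
        ∑ k, (w i a • nv (n i a) (c i a) q) k * v k := by
      intro i a
      simp only [Pi.smul_apply, smul_eq_mul, nv]
      rw [← mul_assoc, Finset.mul_sum]
      refine Finset.sum_congr rfl fun k _ => by ring
    simp only [h3]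
    have h4 : ∀ i, ∑ a, ∑ k, (w i a • nv (n i a) (c i a) q) k * v k =
        ∑ k, ∑ a, (w i a • nv (n i a) (c i a) q) k * v k := fun i => Finset.sum_comm
    simp only [h4]
    rw [Finset.sum_comm]
    have h5 : ∀ k, ∑ i, ∑ a, (w i a • nv (n i a) (c i a) q) k * v k =
        (∑ i, ∑ a, w i a • nv (n i a) (c i a) q) k * v k := by
      intro k
      simp only [Finset.sum_apply, Finset.sum_mul]
    simp only [h5, hwv]
    simp
  have h2 : ∑ i, ∑ a, w i a * ((c i a - ∑ k, n i a k * q k) * (∑ k, n i a k * v k)) < 0 := by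
    have hle : ∀ i a, w i a * ((c i a - ∑ k, n i a k * q k) * (∑ k, n i a k * v k)) ≤ 0 := by
      intro i a
      by_cases h : π i a.succ = j.succ
      · have h3 := hσ i a j h
        have h4 := key i
        rw [h3] at h4
        exact mul_nonpos_of_nonneg_of_nonpos (hw0 i a) h4.le
      · rw [hwz i a h, zero_mul]
    obtain ⟨i, hi⟩ : ∃ i, 0 < ∑ a, w i a := by
      by_contra hc
      push Not at hc
      have := Finset.sum_nonpos (s := univ) fun i _ => hc i
      rw [hw1] at this
      linarith
    obtain ⟨a, ha⟩ : ∃ a, 0 < w i a := by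
      by_contra hc
      push Not at hc
      have := Finset.sum_nonpos (s := univ) fun a _ => hc a
      linarith
    have hlt : w i a * ((c i a - ∑ k, n i a k * q k) * (∑ k, n i a k * v k)) < 0 := by
      have h : π i a.succ = j.succ := by
        by_contra h
        rw [hwz i a h] at ha
        exact lt_irrefl _ ha
      have h3 := hσ i a j h
      have h4 := key i
      rw [h3] at h4
      exact mul_neg_of_pos_of_neg ha h4
    refine Finset.sum_neg' (fun i _ => Finset.sum_nonpos fun a _ => hle i a)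
      ⟨i, mem_univ _, Finset.sum_neg' (fun a _ => hle i a) ⟨a, mem_univ _, hlt⟩⟩
  exact absurd h1 h2.ne

end Pool.Agent.Helper40.Ct
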