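import Pool.Agent.Helper40.Ct.Defs

/-!
The parts of the proof, as propositions.
-/

set_option autoImplicit false

open Finset

namespace Pool.Agent.Helper40.Ct

/-- the signed indicator of the cone is a cocycle -/
def COC : Prop :=
  ∀ (N : ℕ) (b : Fin N → ℝ) (l : List (Fin N → ℝ)) (ℓ : (Fin N → ℝ) →ₗ[ℝ] ℝ),
    l.length = N + 1 → (∀ w ∈ l, 0 < ℓ w) →
    (∀ (A : Finset (Fin l.length)) (c : Fin l.length → ℝ), A.card < N → (∀ s, 0 ≤ c s) →
      ∑ s ∈ A, c s • l.get s ≠ b) →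
    bdf (dgL b) l = 0

/-- the boundary of the product of two simplices -/
def EZ : Prop :=
  ∀ (α β : Type) (E : List β) (f : List (α × β) → ℤ) (X : List α), X ≠ [] → E ≠ [] →
    2 ≤ X.length ∨ 2 ≤ E.length →
    Pf E (bdf f) X = bdf (Pf E f) X + (-1) ^ (X.length - 1) * bdf (fun E' => Pf E' f X) E

/-- the staircase sum by recursion on the other list -/
def SYM : Prop :=
  ∀ (α β : Type) (E : List β) (f : List (α × β) → ℤ) (x x' : α) (xs : List α),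
    Pf E f [x] = (if E = [] then 0 else f (E.map fun e => (x, e))) ∧
    Pf E f (x :: x' :: xs) = ∑ i ∈ range E.length, (-1) ^ (i * (xs.length + 1)) *
      Pf (E.drop i) (fun l => f ((E.take (i + 1)).map (fun e => (x, e)) ++ l)) (x' :: xs)

/-- the lists that occur in the staircase sum -/
def PATHS : Prop :=
  ∀ (α β : Type) (m : ℤ) (E : List β) (X : List α) (g : List (α × β) → ℤ),
    (∀ l : List (α × β), (∀ q ∈ l, q.1 ∈ X ∧ q.2 ∈ E) → l.length + 1 = X.length + E.length →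
      (X.Nodup → E.Nodup → l.Nodup) → m ∣ g l) → m ∣ Pf E g X

/-- cyclic symmetry -/
def CYC : Prop :=
  ∀ (d r : ℕ) (α : Type) (u : α → El d r → (Fin d → ℝ)) (X : List α) (E : List (El d r)),
    none ∉ E → ((r + 1 : ℕ) : ℤ) ∣ ∑ π : Fac d r, sg π * Pf E (fpi u π) X

/-- cancellation of the inner faces -/
def CANC : Prop :=
  ∀ (d r : ℕ) (α : Type) (u : α → El d r → (Fin d → ℝ)) (X : List α) (E : List (El d r))
    (i : Fin (d + 1)) (a : Fin r), some (i, a) ∉ E →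
    ∑ π : Fac d r, sg π * Pf E (fpi u π) X = 0

/-- general position of a list of pairs gives the hypothesis of `COC` -/
def GENL : Prop :=
  ∀ (d r : ℕ) (α : Type) (u : α → El d r → (Fin d → ℝ)) (π : Fac d r)
    (l : List (α × El d r)) (X : List α), l.Nodup → (∀ q ∈ l, q.1 ∈ X) → Gen u X →
    ∀ (A : Finset (Fin (l.map fun q => enc π (u q.1 q.2) q.2).length))
      (c : Fin (l.map fun q => enc π (u q.1 q.2) q.2).length → ℝ),
      A.card < (d + 1) * (r + 1) → (∀ s, 0 ≤ c s) →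
      ∑ s ∈ A, c s • (l.map fun q => enc π (u q.1 q.2) q.2).get s ≠ bvec d r

/-- the cochain is closed modulo `r + 1` -/
def BDRY : Prop :=
  ∀ (d r : ℕ) (α : Type) (u : α → El d r → (Fin d → ℝ)) (X : List α), 1 ≤ r → X.Nodup →
    X.length = d + 2 → Gen u X → ((r + 1 : ℕ) : ℤ) ∣ bdf (cc u) X

/-- the boundary of the fundamental chain of the grid -/
def GRB : Prop :=
  ∀ (d M : ℕ) (f : List (Fin d → ℤ) → ℤ), 1 ≤ d →
    (∀ Y : List (Fin d → ℤ), Y.length = d → InGrid M Y → InFacet M Y → f Y = 0) →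
    Gr d M (bdf f) = 0

/-- homotopy invariance -/
def HOM : Prop :=
  ∀ (d M : ℕ) (m : ℤ) (f : List ((Fin d → ℤ) × Fin 2) → ℤ), 1 ≤ d →
    (∀ (x : Fin d → Fin M) (σ : Equiv.Perm (Fin d)), m ∣ Pf [0, 1] (bdf f) (frd (corner x) σ)) →
    (∀ Y : List (Fin d → ℤ), Y.length = d → InGrid M Y → InFacet M Y →
      Pf [0, 1] f Y = 0) →
    m ∣ Gr d M (fun X => f (X.map fun x => (x, (1 : Fin 2)))) -
      Gr d M (fun X => f (X.map fun x => (x, (0 : Fin 2))))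

/-- no contribution if all vectors are in an open half space -/
def SIDE : Prop :=
  ∀ (d r : ℕ) (α : Type) (u : α → El d r → (Fin d → ℝ)) (X : List α) (k : Fin d) (s : ℝ),
    (∀ x ∈ X, ∀ e, 0 < s * u x e k) → cc u X = 0

/-- no contribution if the vectors do not depend on the element and `0` is not in their convex
hull -/
def EVAL0 : Prop :=
  ∀ (d r : ℕ) (α : Type) (u : α → El d r → (Fin d → ℝ)) (g : α → (Fin d → ℝ)) (X : List α),
    (∀ x ∈ X, ∀ e, u x e = g x) →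
    (0 : Fin d → ℝ) ∉ convexHull ℝ (g '' {x | x ∈ X}) → cc u X = 0

/-- the only path that counts -/
def EV1 : Prop :=
  ∀ (α β : Type) (r : ℕ) (E : List β) (X : List α), X ≠ [] → X.Nodup →
    E.length = X.length * r + 1 →
    ∃ ε : ℤ, (ε = 1 ∨ ε = -1) ∧ ∀ g : List (α × β) → ℤ,
      (∀ l : List (α × β), (∀ q ∈ l, q.1 ∈ X) → g l ≠ 0 →
        ∀ x ∈ X, {s : Fin l.length | (l.get s).1 = x}.ncard = r + 1) →
      Pf E g X = ε * g (blk r E X)

/-- only lists in which every point occurs `r + 1` times count -/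
def EV1a : Prop :=
  ∀ (d r : ℕ) (α : Type) (u : α → El d r → (Fin d → ℝ)) (g : α → (Fin d → ℝ))
    (x : Fin (d + 1) → α), Function.Injective x → (∀ s e, u (x s) e = g (x s)) →
    (∀ A : Finset (Fin (d + 1)), A ≠ univ →
      (0 : Fin d → ℝ) ∉ convexHull ℝ ((fun s => g (x s)) '' (A : Set (Fin (d + 1))))) →
    ∀ (π : Fac d r) (l : List (α × El d r)), (∀ q ∈ l, ∃ s, q.1 = x s) → fpi u π l ≠ 0 →
      ∀ s, {t : Fin l.length | (l.get t).1 = x s}.ncard = r + 1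

/-- the sign of the facets that count -/
def EV2 : Prop :=
  ∀ (d r : ℕ) (α : Type) (u : α → El d r → (Fin d → ℝ)) (g : α → (Fin d → ℝ))
    (x : Fin (d + 1) → α), 1 ≤ r → Function.Injective x → (∀ s e, u (x s) e = g (x s)) →
    (∃ c : Fin (d + 1) → ℝ, (∀ s, 0 < c s) ∧ ∑ s, c s = 1 ∧ ∑ s, c s • g (x s) = 0) →
    (∀ c : Fin (d + 1) → ℝ, ∑ s, c s = 0 → ∑ s, c s • g (x s) = 0 → c = 0) →
    ∃ ε : ℤ, (ε = 1 ∨ ε = -1) ∧ ∀ π : Fac d r,
      (Valid π → fpi u π (blk r (elList d r) (List.ofFn x)) = ε * sg π) ∧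
      (¬ Valid π → fpi u π (blk r (elList d r) (List.ofFn x)) = 0)

/-- the number of facets that count -/
def EV3 : Prop :=
  ∀ (d r : ℕ), 1 ≤ r → Nat.card {π : Fac d r // Valid π} = (r.factorial) ^ (d + 1)

/-- the value at a simplex around `0` -/
def EVAL1 : Prop :=
  ∀ (d r : ℕ) (α : Type) (u : α → El d r → (Fin d → ℝ)) (g : α → (Fin d → ℝ))
    (x : Fin (d + 1) → α), 1 ≤ r → Function.Injective x → (∀ s e, u (x s) e = g (x s)) →
    (∃ c : Fin (d + 1) → ℝ, (∀ s, 0 < c s) ∧ ∑ s, c s = 1 ∧ ∑ s, c s • g (x s) = 0) →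
    (∀ c : Fin (d + 1) → ℝ, ∑ s, c s = 0 → ∑ s, c s • g (x s) = 0 → c = 0) →
    ∃ ε : ℤ, (ε = 1 ∨ ε = -1) ∧ cc u (List.ofFn x) = ε * ((r.factorial : ℤ)) ^ (d + 1)

/-- the centre is in the first simplex only, and in general position -/
def GRX : Prop :=
  ∀ (d : ℕ), 1 ≤ d →
    (∀ (M : ℕ) (x : Fin d → Fin M) (σ : Equiv.Perm (Fin d)),
      (0 : Fin d → ℝ) ∈ convexHull ℝ (gf '' {y | y ∈ frd (corner x) σ}) →
      (∀ k, (x k : ℕ) = 0) ∧ σ = 1) ∧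
    (∀ (x : Fin d → ℤ) (σ : Equiv.Perm (Fin d)) (A : Finset (Fin d → ℤ)),
      (∀ y ∈ A, y ∈ frd x σ) → A.card ≤ d →
      (0 : Fin d → ℝ) ∉ convexHull ℝ (gf '' (A : Set (Fin d → ℤ)))) ∧
    (∃ x : Fin (d + 1) → (Fin d → ℤ), Function.Injective x ∧
      frd (0 : Fin d → ℤ) 1 = List.ofFn x ∧
      (∃ c : Fin (d + 1) → ℝ, (∀ s, 0 < c s) ∧ ∑ s, c s = 1 ∧ ∑ s, c s • gf (x s) = 0) ∧
      (∀ c : Fin (d + 1) → ℝ, ∑ s, c s = 0 → ∑ s, c s • gf (x s) = 0 → c = 0))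

/-- elementary properties of the simplices of the grid -/
def GRE : Prop :=
  ∀ (d : ℕ) (x : Fin d → ℤ) (σ : Equiv.Perm (Fin d)), (frd x σ).length = d + 1 ∧
    (frd x σ).Nodup ∧ ∀ y ∈ frd x σ, ∀ k, x k ≤ y k ∧ y k ≤ x k + 1

/-- small perturbations in general position -/
def GP : Prop :=
  ∀ (d : ℕ) (ι : Type) [Fintype ι] (v : ι → (Fin d → ℝ)) (B0 : Finset (Fin d → ℝ)) (δ : ℝ),
    0 < δ → ∃ u : ι → (Fin d → ℝ), (∀ i k, |u i k - v i k| < δ) ∧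
      ∀ (A : Finset ι) (B : Finset (Fin d → ℝ)), B ⊆ B0 → A.card + B.card ≤ d →
        ∀ (c : ι → ℝ) (c' : (Fin d → ℝ) → ℝ), ∑ i ∈ A, c i • u i + ∑ b ∈ B, c' b • b = 0 →
          ∀ i ∈ A, c i = 0

/-- a nonzero value gives a hit -/
def FIND : Prop :=
  ∀ (d r : ℕ) (α : Type) (u : α → El d r → (Fin d → ℝ)) (X : List α), X.Nodup → cc u X ≠ 0 →
    ∃ (π : Fac d r) (c : α → El d r → ℝ), (∀ x e, 0 ≤ c x e) ∧ (∀ x e, x ∉ X → c x e = 0) ∧
      ∀ j : Fin (r + 1),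
        (∑ e ∈ univ.filter (fun e => part π e = j), (X.map fun x => c x e).sum) = 1 ∧
        (∑ e ∈ univ.filter (fun e => part π e = j), (X.map fun x => c x e • u x e).sum) = 0

/-- approximate solutions on the grid -/
def APPR : Prop :=
  ∀ (d r : ℕ), 1 ≤ d → 1 ≤ r → (r + 1).Prime → ∀ (M : ℕ), 1 ≤ M →
    ∀ (v : (Fin d → ℤ) → El d r → (Fin d → ℝ)),
    (∀ (y : Fin d → ℤ) (k : Fin d) (e : El d r), (∀ k', 0 ≤ y k' ∧ y k' ≤ M) →
      (y k = 0 → 0 < v y e k) ∧ (y k = M → v y e k < 0)) →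
    ∀ δ : ℝ, 0 < δ →
    ∃ (x : Fin d → Fin M) (σ : Equiv.Perm (Fin d)) (π : Fac d r)
      (c : (Fin d → ℤ) → El d r → ℝ), (∀ y e, 0 ≤ c y e) ∧
      ∀ j : Fin (r + 1),
        (∑ e ∈ univ.filter (fun e => part π e = j),
          ((frd (corner x) σ).map fun y => c y e).sum) = 1 ∧
        ∀ k, |(∑ e ∈ univ.filter (fun e => part π e = j),
          ((frd (corner x) σ).map fun y => c y e • v y e).sum) k| ≤ δ

/-- the theorem for continuous fields on the cube -/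
def CUBE : Prop :=
  ∀ (d r : ℕ), 1 ≤ d → 1 ≤ r → (r + 1).Prime →
    ∀ (w : El d r → (Fin d → ℝ) → (Fin d → ℝ)), (∀ e, Continuous (w e)) →
    (∀ e (q : Fin d → ℝ) (k : Fin d), (∀ k', 0 ≤ q k' ∧ q k' ≤ 1) →
      (q k = 0 → 0 < w e q k) ∧ (q k = 1 → w e q k < 0)) →
    ∃ (q : Fin d → ℝ) (π : Fac d r), (∀ k, 0 ≤ q k ∧ q k ≤ 1) ∧
      ∀ j, Hits π (fun e => w e q) j

/-- the theorem for fields that point inwards outside a ball -/
def BALL : Prop :=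
  ∀ (d r : ℕ), 1 ≤ d → 1 ≤ r → (r + 1).Prime →
    ∀ (w : El d r → (Fin d → ℝ) → (Fin d → ℝ)), (∀ e, Continuous (w e)) →
    ∀ R : ℝ, 0 < R → (∀ e (q : Fin d → ℝ), R ^ 2 ≤ ∑ k, q k ^ 2 → ∑ k, w e q k * q k < 0) →
    ∃ (q : Fin d → ℝ) (π : Fac d r), ∀ j, Hits π (fun e => w e q) j

/-- the vector from `q` to the nearest point of the hyperplane `n · x = c`, for a unit vector `n` -/
def nv {d : ℕ} (n : Fin d → ℝ) (c : ℝ) (q : Fin d → ℝ) : Fin d → ℝ :=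
  (c - ∑ k, n k * q k) • n

/-- approximate solutions for hyperplanes -/
def HYPE : Prop :=
  ∀ (d r : ℕ), 1 ≤ d → 1 ≤ r → (r + 1).Prime →
    ∀ (n : Fin (d + 1) → Fin r → (Fin d → ℝ)) (c : Fin (d + 1) → Fin r → ℝ),
    (∀ i a, ∑ k, n i a k ^ 2 = 1) → ∀ ε : ℝ, 0 < ε →
    ∃ (q : Fin d → ℝ) (π : Fac d r), ∀ j : Fin r, ∃ w : Fin (d + 1) → Fin r → ℝ,
      (∀ i a, 0 ≤ w i a) ∧ (∀ i a, π i a.succ ≠ j.succ → w i a = 0) ∧ ∑ i, ∑ a, w i a = 1 ∧
      ∑ i, ∑ a, w i a • nv (n i a) (c i a) q = ε • q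

/-- solutions for hyperplanes -/
def HYP0 : Prop :=
  ∀ (d r : ℕ), 1 ≤ d → 1 ≤ r → (r + 1).Prime →
    ∀ (n : Fin (d + 1) → Fin r → (Fin d → ℝ)) (c : Fin (d + 1) → Fin r → ℝ),
    (∀ i a, ∑ k, n i a k ^ 2 = 1) →
    ∃ (q : Fin d → ℝ) (π : Fac d r), ∀ j : Fin r, ∃ w : Fin (d + 1) → Fin r → ℝ,
      (∀ i a, 0 ≤ w i a) ∧ (∀ i a, π i a.succ ≠ j.succ → w i a = 0) ∧ ∑ i, ∑ a, w i a = 1 ∧
      ∑ i, ∑ a, w i a • nv (n i a) (c i a) q = 0

/-- a facet gives a colourful partition -/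
def PERM : Prop :=
  ∀ (d r : ℕ) (π : Fac d r), ∃ σ : Fin (d + 1) → Equiv.Perm (Fin r),
    ∀ (i : Fin (d + 1)) (a : Fin r) (j : Fin r), π i a.succ = j.succ → σ i j = a

end Pool.Agent.Helper40.Ct
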